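import Mathlib

/-!
Construction of the approximating function `ψ` from a sequence of scales.
-/

namespace R464.Jar

open Finset Filter

theorem exists_psi (δ : ℕ → ℝ) (N : ℕ → ℕ) (hδ : ∀ j, 0 < δ j) (hN : Tendsto N atTop atTop)
    (p e : ℝ) (hp : 0 < p) (he : 0 ≤ e)
    (hs : Summable fun j => δ j ^ p * ((N j : ℝ) + 1) ^ (e + 1)) :
    ∃ ψ : ℕ → ℝ, (∀ q, 0 < ψ q) ∧ StrictAnti ψ ∧ (∀ j q, q ≤ N j → δ j < ψ q) ∧
      Summable fun q : ℕ => ψ q ^ p * (q : ℝ) ^ e := by
  classical
  have hs' : Summable fun j => δ j ^ p := by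
    refine Summable.of_nonneg_of_le (fun j => Real.rpow_nonneg (hδ j).le _) (fun j => ?_) hs
    have h1 : (1 : ℝ) ≤ ((N j : ℝ) + 1) ^ (e + 1) :=
      Real.one_le_rpow (by have := Nat.cast_nonneg (α := ℝ) (N j); linarith) (by linarith)
    exact le_mul_of_one_le_right (Real.rpow_nonneg (hδ j).le _) h1
  set T : ℝ := ∑' j, δ j ^ p with hT
  have hδT : ∀ j, δ j ^ p ≤ T := fun j => hs'.le_tsum j fun i _ => Real.rpow_nonneg (hδ i).le _
  have hδb : ∀ j, δ j ≤ T ^ (1 / p) := by
    intro j
    have h1 := Real.rpow_le_rpow (Real.rpow_nonneg (hδ j).le p) (hδT j)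
      (by positivity : (0 : ℝ) ≤ 1 / p)
    rwa [← Real.rpow_mul (hδ j).le, mul_one_div_cancel hp.ne', Real.rpow_one] at h1
  let g : ℕ → ℕ → ℝ := fun q j => if q ≤ N j then δ j else 0
  have hg0 : ∀ q j, 0 ≤ g q j := by
    intro q j; simp only [g]; split_ifs
    · exact (hδ j).le
    · exact le_rfl
  have hgb : ∀ q, BddAbove (Set.range (g q)) := by
    intro q
    refine ⟨T ^ (1 / p), ?_⟩
    rintro _ ⟨j, rfl⟩
    simp only [g]; split_ifs
    · exact hδb j
    · exact (hδ j).le.trans (hδb j)
  let f : ℕ → ℝ := fun q => ⨆ j, g q j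
  have hfpos : ∀ q, 0 < f q := by
    intro q
    obtain ⟨j, hj⟩ := (hN.eventually_ge_atTop q).exists
    have h1 : g q j ≤ f q := le_ciSup (hgb q) j
    have h2 : g q j = δ j := by simp only [g]; rw [if_pos hj]
    linarith [hδ j]
  have hfanti : Antitone f := by
    intro a b hab
    refine ciSup_le fun j => ?_
    refine le_trans ?_ (le_ciSup (hgb a) j)
    simp only [g]
    by_cases hb : b ≤ N j
    · rw [if_pos hb, if_pos (hab.trans hb)]
    · rw [if_neg hb]; split_ifs
      · exact (hδ j).le
      · exact le_rfl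
  have hfge : ∀ j q, q ≤ N j → δ j ≤ f q := by
    intro j q hj
    have h1 : g q j ≤ f q := le_ciSup (hgb q) j
    have h2 : g q j = δ j := by simp only [g]; rw [if_pos hj]
    linarith
  have hgs : ∀ q, Summable fun j => g q j ^ p := by
    intro q
    refine Summable.of_nonneg_of_le (fun j => Real.rpow_nonneg (hg0 q j) _) (fun j => ?_) hs'
    simp only [g]; split_ifs
    · exact le_rfl
    · rw [Real.zero_rpow hp.ne']; exact Real.rpow_nonneg (hδ j).le _
  have hfp : ∀ q, f q ^ p ≤ ∑' j, g q j ^ p := by
    intro q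
    have h1 : f q ≤ (∑' j, g q j ^ p) ^ (1 / p) := by
      refine ciSup_le fun j => ?_
      have h2 : g q j ^ p ≤ ∑' j, g q j ^ p :=
        (hgs q).le_tsum j fun i _ => Real.rpow_nonneg (hg0 q i) _
      have h3 := Real.rpow_le_rpow (Real.rpow_nonneg (hg0 q j) p) h2
        (by positivity : (0 : ℝ) ≤ 1 / p)
      rwa [← Real.rpow_mul (hg0 q j), mul_one_div_cancel hp.ne', Real.rpow_one] at h3
    have h2 := Real.rpow_le_rpow (hfpos q).le h1 hp.le
    have h3 : 0 ≤ ∑' j, g q j ^ p := tsum_nonneg fun j => Real.rpow_nonneg (hg0 q j) _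
    rwa [← Real.rpow_mul h3, one_div_mul_cancel hp.ne', Real.rpow_one] at h2
  refine ⟨fun q => f q * (1 + 1 / ((q : ℝ) + 1)), ?_, ?_, ?_, ?_⟩
  · intro q
    have := hfpos q
    positivity
  · intro a b hab
    have h1 : f b ≤ f a := hfanti hab.le
    have h2 : (1 : ℝ) / ((b : ℝ) + 1) < 1 / ((a : ℝ) + 1) := by
      have : (a : ℝ) < b := by exact_mod_cast hab
      apply one_div_lt_one_div_of_lt <;> [positivity; linarith]
    have h3 : (0 : ℝ) < 1 + 1 / ((b : ℝ) + 1) := by positivity
    calc f b * (1 + 1 / ((b : ℝ) + 1)) ≤ f a * (1 + 1 / ((b : ℝ) + 1)) :=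
          mul_le_mul_of_nonneg_right h1 h3.le
      _ < f a * (1 + 1 / ((a : ℝ) + 1)) := mul_lt_mul_of_pos_left (by linarith) (hfpos a)
  · intro j q hj
    have h1 := hfge j q hj
    have h2 : (0 : ℝ) < 1 / ((q : ℝ) + 1) := by positivity
    have h3 := mul_pos (hfpos q) h2
    calc δ j ≤ f q := h1
      _ < f q * (1 + 1 / ((q : ℝ) + 1)) := by nlinarith
  · refine summable_of_sum_le (c := 2 ^ p * ∑' j, δ j ^ p * ((N j : ℝ) + 1) ^ (e + 1)) ?_ ?_
    · intro q
      have := hfpos q
      positivity
    · intro u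
      have hterm : ∀ q : ℕ, (f q * (1 + 1 / ((q : ℝ) + 1))) ^ p * (q : ℝ) ^ e ≤
          2 ^ p * ∑' j, g q j ^ p * (q : ℝ) ^ e := by
        intro q
        have h1 : 1 + 1 / ((q : ℝ) + 1) ≤ 2 := by
          have : 1 / ((q : ℝ) + 1) ≤ 1 := by
            rw [div_le_one (by positivity)]; have := Nat.cast_nonneg (α := ℝ) q; linarith
          linarith
        have h2 : (f q * (1 + 1 / ((q : ℝ) + 1))) ^ p ≤ 2 ^ p * f q ^ p := by
          rw [Real.mul_rpow (hfpos q).le (by positivity), mul_comm]
          exact mul_le_mul_of_nonneg_right (Real.rpow_le_rpow (by positivity) h1 hp.le)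
            (Real.rpow_nonneg (hfpos q).le _)
        have h3 : (0 : ℝ) ≤ (q : ℝ) ^ e := Real.rpow_nonneg (Nat.cast_nonneg _) _
        calc _ ≤ (2 ^ p * f q ^ p) * (q : ℝ) ^ e := mul_le_mul_of_nonneg_right h2 h3
          _ ≤ (2 ^ p * ∑' j, g q j ^ p) * (q : ℝ) ^ e := by
              refine mul_le_mul_of_nonneg_right ?_ h3
              exact mul_le_mul_of_nonneg_left (hfp q) (by positivity)
          _ = 2 ^ p * ∑' j, g q j ^ p * (q : ℝ) ^ e := by
              rw [mul_assoc, tsum_mul_right]
      calc _ ≤ ∑ q ∈ u, 2 ^ p * ∑' j, g q j ^ p * (q : ℝ) ^ e :=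
            Finset.sum_le_sum fun q _ => hterm q
        _ = 2 ^ p * ∑' j, ∑ q ∈ u, g q j ^ p * (q : ℝ) ^ e := by
            rw [← Finset.mul_sum, Summable.tsum_finsetSum]
            intro q _
            exact (hgs q).mul_right _
        _ ≤ _ := by
            refine mul_le_mul_of_nonneg_left ?_ (by positivity)
            refine Summable.tsum_le_tsum (fun j => ?_) ?_ hs
            · calc ∑ q ∈ u, g q j ^ p * (q : ℝ) ^ e ≤
                  ∑ q ∈ u.filter (fun q => q ≤ N j), δ j ^ p * ((N j : ℝ) + 1) ^ e := by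
                    rw [Finset.sum_filter]
                    refine Finset.sum_le_sum fun q _ => ?_
                    by_cases hq : q ≤ N j
                    · rw [if_pos hq]
                      simp only [g]; rw [if_pos hq]
                      refine mul_le_mul_of_nonneg_left ?_ (Real.rpow_nonneg (hδ j).le _)
                      refine Real.rpow_le_rpow (Nat.cast_nonneg _) ?_ he
                      have : (q : ℝ) ≤ N j := by exact_mod_cast hq
                      linarith
                    · rw [if_neg hq]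
                      simp only [g]; rw [if_neg hq, Real.zero_rpow hp.ne', zero_mul]
                _ = (u.filter (fun q => q ≤ N j)).card * (δ j ^ p * ((N j : ℝ) + 1) ^ e) := by
                    rw [Finset.sum_const, nsmul_eq_mul]
                _ ≤ ((N j : ℝ) + 1) * (δ j ^ p * ((N j : ℝ) + 1) ^ e) := by
                    refine mul_le_mul_of_nonneg_right ?_
                      (mul_nonneg (Real.rpow_nonneg (hδ j).le _) (by positivity))
                    have h1 : (u.filter (fun q => q ≤ N j)).card ≤ (Finset.range (N j + 1)).card :=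
                      Finset.card_le_card fun q hq => by
                        rw [Finset.mem_range]
                        have := (Finset.mem_filter.mp hq).2
                        omega
                    rw [Finset.card_range] at h1
                    exact_mod_cast h1
                _ = δ j ^ p * ((N j : ℝ) + 1) ^ (e + 1) := by
                    rw [Real.rpow_add_one (by positivity)]; ring
            · exact summable_sum fun q _ => (hgs q).mul_right _
end R464.Jar
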