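import Mathlib

/-!
Strip pigeonhole: if the points `y a` all lie near the hyperplanes `q · y ∈ ℤ`, they meet few cells
of side `1/K`, so many of them are in one cell.
-/

namespace R464.Jar

open Finset

/-- Number of vectors `c : κ → ZMod K` with `∑ q i c i ∈ R`, when some `q i0` is a unit. -/
theorem card_strip {κ : Type*} [Fintype κ] [DecidableEq κ] {K : ℕ} [NeZero K] (q : κ → ℤ) (i0 : κ)
    (hu : IsUnit ((q i0 : ℤ) : ZMod K)) (R : Finset (ZMod K)) :
    (univ.filter fun c : κ → ZMod K => ∑ i, (q i : ZMod K) * c i ∈ R).card ≤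
      K ^ (Fintype.card κ - 1) * R.card := by
  classical
  have hinj : Set.InjOn (fun c : κ → ZMod K =>
      ((fun i : {i : κ // i ≠ i0} => c i.1), ∑ i, (q i : ZMod K) * c i))
      (univ.filter fun c : κ → ZMod K => ∑ i, (q i : ZMod K) * c i ∈ R :
        Finset (κ → ZMod K)) := by
    intro c _ c' _ h
    simp only [Prod.mk.injEq] at h
    obtain ⟨h1, h2⟩ := h
    have h1' : ∀ i, i ≠ i0 → c i = c' i := fun i hi => congrFun h1 ⟨i, hi⟩
    have e1 : ∑ i, (q i : ZMod K) * c i = (q i0 : ZMod K) * c i0 +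
        ∑ i ∈ univ.erase i0, (q i : ZMod K) * c i := (Finset.add_sum_erase _ _ (mem_univ i0)).symm
    have e2 : ∑ i, (q i : ZMod K) * c' i = (q i0 : ZMod K) * c' i0 +
        ∑ i ∈ univ.erase i0, (q i : ZMod K) * c' i := (Finset.add_sum_erase _ _ (mem_univ i0)).symm
    have e3 : ∑ i ∈ univ.erase i0, (q i : ZMod K) * c i =
        ∑ i ∈ univ.erase i0, (q i : ZMod K) * c' i :=
      Finset.sum_congr rfl fun i hi => by rw [h1' i (Finset.ne_of_mem_erase hi)]
    rw [e1, e2, e3] at h2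
    have h3 : (q i0 : ZMod K) * c i0 = (q i0 : ZMod K) * c' i0 := add_right_cancel h2
    have h4 : c i0 = c' i0 := hu.mul_left_cancel h3
    funext i
    by_cases hi : i = i0
    · rw [hi, h4]
    · exact h1' i hi
  have hmaps : ∀ c ∈ (univ.filter fun c : κ → ZMod K => ∑ i, (q i : ZMod K) * c i ∈ R),
      ((fun i : {i : κ // i ≠ i0} => c i.1), ∑ i, (q i : ZMod K) * c i) ∈
        (univ : Finset ({i : κ // i ≠ i0} → ZMod K)) ×ˢ R := by
    intro c hc
    simp only [mem_product, mem_univ, true_and]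
    exact (mem_filter.mp hc).2
  calc _ ≤ ((univ : Finset ({i : κ // i ≠ i0} → ZMod K)) ×ˢ R).card :=
        Finset.card_le_card_of_injOn _ hmaps hinj
    _ = K ^ (Fintype.card κ - 1) * R.card := by
        rw [Finset.card_product, Finset.card_univ, Fintype.card_fun, ZMod.card,
          Fintype.card_subtype_compl, Fintype.card_subtype_eq]

/-- Strip pigeonhole. -/
theorem strip_pigeonhole {κ : Type*} [Fintype κ] [DecidableEq κ] (q : κ → ℤ) (i0 : κ) (Q K : ℕ) (hK : 0 < K)
    (hq : ∀ i, |q i| ≤ (Q : ℤ)) (hcop : IsCoprime (q i0) (K : ℤ))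
    {ι : Type*} (T : Finset ι) (y : ι → κ → ℝ) (ε : ℝ)
    (hε : 0 ≤ ε) (h : ∀ a ∈ T, ∃ z : ℤ, |∑ i, (q i : ℝ) * y a i - z| ≤ ε) (B : ℕ)
    (hB : (K : ℝ) ^ (Fintype.card κ - 1) * (2 * (K * ε + (Fintype.card κ) * Q) + 1) * B < T.card) :
    ∃ T' ⊆ T, B < T'.card ∧ ∀ a ∈ T', ∀ a' ∈ T', ∃ p : κ → ℤ,
      ∀ i, |y a i - y a' i - p i| < 1 / K := by
  classical
  have : NeZero K := ⟨hK.ne'⟩
  have hKr : (0 : ℝ) < K := by exact_mod_cast hK
  have hu : IsUnit ((q i0 : ℤ) : ZMod K) := by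
    obtain ⟨u, v, huv⟩ := hcop
    have h1 : ((u * q i0 + v * (K : ℤ) : ℤ) : ZMod K) = 1 := by rw [huv]; simp
    push_cast at h1
    rw [ZMod.natCast_self, mul_zero, add_zero] at h1
    exact IsUnit.of_mul_eq_one _ (by rw [mul_comm]; exact h1)
  set W : ℤ := ⌊(K : ℝ) * ε + (Fintype.card κ) * Q⌋ with hW
  set R : Finset (ZMod K) := (Finset.Icc (-W) W).image (fun v : ℤ => (v : ZMod K)) with hR
  set S := (univ.filter fun c : κ → ZMod K => ∑ i, (q i : ZMod K) * c i ∈ R) with hS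
  let c : ι → κ → ZMod K := fun a i => ((⌊(K : ℝ) * y a i⌋ : ℤ) : ZMod K)
  have hmaps : ∀ a ∈ T, c a ∈ S := by
    intro a ha
    obtain ⟨z, hz⟩ := h a ha
    rw [hS, mem_filter]
    refine ⟨mem_univ _, ?_⟩
    rw [hR, Finset.mem_image]
    refine ⟨∑ i, q i * ⌊(K : ℝ) * y a i⌋ - K * z, ?_, ?_⟩
    · have hb : |((∑ i, q i * ⌊(K : ℝ) * y a i⌋ - K * z : ℤ) : ℝ)| ≤ K * ε + (Fintype.card κ) * Q := by
        have e : ((∑ i, q i * ⌊(K : ℝ) * y a i⌋ - K * z : ℤ) : ℝ) =
            K * (∑ i, (q i : ℝ) * y a i - z) - ∑ i, (q i : ℝ) * Int.fract ((K : ℝ) * y a i) := by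
          push_cast
          rw [mul_sub, Finset.mul_sum]
          have : ∀ i, (q i : ℝ) * (⌊(K : ℝ) * y a i⌋ : ℝ) =
              K * ((q i : ℝ) * y a i) - (q i : ℝ) * Int.fract ((K : ℝ) * y a i) := by
            intro i
            have := Int.self_sub_floor ((K : ℝ) * y a i)
            rw [← this]; ring
          rw [Finset.sum_congr rfl fun i _ => this i, Finset.sum_sub_distrib]
          ring
        rw [e]
        have h1 : |(K : ℝ) * (∑ i, (q i : ℝ) * y a i - z)| ≤ K * ε := by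
          rw [abs_mul, abs_of_pos hKr]
          exact mul_le_mul_of_nonneg_left hz hKr.le
        have h2 : |∑ i, (q i : ℝ) * Int.fract ((K : ℝ) * y a i)| ≤ (Fintype.card κ) * Q := by
          calc _ ≤ ∑ i : κ, |(q i : ℝ) * Int.fract ((K : ℝ) * y a i)| :=
                Finset.abs_sum_le_sum_abs _ _
            _ ≤ ∑ i : κ, (Q : ℝ) := by
                refine Finset.sum_le_sum fun i _ => ?_
                rw [abs_mul, abs_of_nonneg (Int.fract_nonneg ((K : ℝ) * y a i))]
                have h3 : |(q i : ℝ)| ≤ Q := by exact_mod_cast hq i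
                have h4 := (Int.fract_lt_one ((K : ℝ) * y a i)).le
                calc |(q i : ℝ)| * Int.fract ((K : ℝ) * y a i) ≤ |(q i : ℝ)| * 1 :=
                      mul_le_mul_of_nonneg_left h4 (abs_nonneg _)
                  _ ≤ Q := by rw [mul_one]; exact h3
            _ = (Fintype.card κ) * Q := by rw [Finset.sum_const, Finset.card_univ, nsmul_eq_mul]
        calc _ ≤ |(K : ℝ) * (∑ i, (q i : ℝ) * y a i - z)| +
              |∑ i, (q i : ℝ) * Int.fract ((K : ℝ) * y a i)| := abs_sub _ _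
          _ ≤ K * ε + (Fintype.card κ) * Q := add_le_add h1 h2
      rw [Finset.mem_Icc]
      rw [abs_le] at hb
      constructor
      · have : -(∑ i, q i * ⌊(K : ℝ) * y a i⌋ - K * z) ≤ W := by
          rw [hW, Int.le_floor]; push_cast; push_cast at hb; linarith [hb.1]
        linarith
      · rw [hW, Int.le_floor]; push_cast; push_cast at hb; linarith [hb.2]
    · push_cast
      rw [ZMod.natCast_self, zero_mul, sub_zero]
  have hcard : (S.card : ℝ) * B < T.card := by
    refine lt_of_le_of_lt ?_ hB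
    refine mul_le_mul_of_nonneg_right ?_ (Nat.cast_nonneg _)
    have hW0 : 0 ≤ W := Int.floor_nonneg.mpr (by positivity)
    have h1 : (S.card : ℝ) ≤ (K : ℝ) ^ (Fintype.card κ - 1) * R.card := by
      exact_mod_cast card_strip q i0 hu R
    have h2 : (R.card : ℝ) ≤ 2 * (K * ε + (Fintype.card κ) * Q) + 1 := by
      have h3 : R.card ≤ (Finset.Icc (-W) W).card := Finset.card_image_le
      have h4 : ((Finset.Icc (-W) W).card : ℤ) = 2 * W + 1 := by
        rw [Int.card_Icc]; rw [Int.toNat_of_nonneg (by linarith)]; ring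
      have h5 : ((Finset.Icc (-W) W).card : ℝ) = 2 * W + 1 := by exact_mod_cast h4
      have h6 : (W : ℝ) ≤ K * ε + (Fintype.card κ) * Q := Int.floor_le _
      calc (R.card : ℝ) ≤ ((Finset.Icc (-W) W).card : ℝ) := by exact_mod_cast h3
        _ ≤ _ := by rw [h5]; linarith
    exact h1.trans (mul_le_mul_of_nonneg_left h2 (by positivity))
  have hcard' : S.card * B < T.card := by exact_mod_cast hcard
  obtain ⟨v, hv, hlt⟩ := Finset.exists_lt_card_fiber_of_mul_lt_card_of_maps_to hmaps hcard'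
  refine ⟨T.filter fun a => c a = v, Finset.filter_subset _ _, hlt, ?_⟩
  intro a ha a' ha'
  have e : ∀ i, ((⌊(K : ℝ) * y a i⌋ : ℤ) : ZMod K) = ((⌊(K : ℝ) * y a' i⌋ : ℤ) : ZMod K) := by
    intro i
    have h1 := (Finset.mem_filter.mp ha).2
    have h2 := (Finset.mem_filter.mp ha').2
    exact congrFun (h1.trans h2.symm) i
  have e2 : ∀ i, ∃ p : ℤ, ⌊(K : ℝ) * y a i⌋ - ⌊(K : ℝ) * y a' i⌋ = K * p := by
    intro i
    have := (ZMod.intCast_eq_intCast_iff_dvd_sub _ _ _).mp (e i).symm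
    exact this
  choose p hp using e2
  refine ⟨p, fun i => ?_⟩
  have h1 := Int.floor_le ((K : ℝ) * y a i)
  have h2 := Int.lt_floor_add_one ((K : ℝ) * y a i)
  have h3 := Int.floor_le ((K : ℝ) * y a' i)
  have h4 := Int.lt_floor_add_one ((K : ℝ) * y a' i)
  have h5 : ((⌊(K : ℝ) * y a i⌋ : ℤ) : ℝ) - (⌊(K : ℝ) * y a' i⌋ : ℤ) = K * p i := by
    exact_mod_cast congrArg (fun x : ℤ => (x : ℝ)) (hp i)
  have h6 : |(y a i - y a' i - p i) * K| < 1 := by
    rw [abs_lt]
    constructor <;> nlinarith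
  rw [abs_mul, abs_of_pos hKr] at h6
  rw [lt_div_iff₀ hKr]
  exact h6
end R464.Jar
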