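import Pool.Agent.R464.Jar.Defs
import Pool.Agent.R464.Jar.Strip
import Pool.Agent.R464.Jar.Psi

/-!
The case `s = d`: every point of the affine subspace is well approximable (with `θ = 0`).
-/

namespace R464.Jar

open Finset Filter

/-- One scale of the pigeonhole argument. -/
theorem scale_d {d m : ℕ} (A0 : Fin m → ℝ) (A1 : Fin d → Fin m → ℝ) (w : ℝ)
    (q : Fin m → ℤ) (hq : IsApprox A0 A1 w q) (i0 : Fin m) (Q Q' K N : ℕ)
    (hQ : ‖q‖ = Q) (hQ1 : ∀ j, |q j| ≤ (Q' : ℤ))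
    (hQ' : (∑ i, ∑ j, |A1 i j|) * Q + 1 ≤ Q') (hw : 0 ≤ w) (hQpos : 1 ≤ Q)
    (hK : 0 < K) (hcop : IsCoprime (q i0) (K : ℤ))
    (hB : (K : ℝ) ^ (d + m - 1) * (2 * (K * (N * ((1 + d) * (Q : ℝ) ^ (-w))) +
      (d + m : ℕ) * Q') + 1) < N + 1)
    (x : Fin d → ℝ) (hx : ∀ i, |x i| ≤ 1) :
    ∃ k : ℕ, 1 ≤ k ∧ k ≤ N ∧ ∃ p : Fin d → ℤ, ∃ r : Fin m → ℤ, (∀ i, |k * x i - p i| < 1 / K) ∧
      ∀ j, |k * (A0 j + ∑ i, x i * A1 i j) - r j| < 1 / K := by
  classical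
  obtain ⟨⟨z0, hz0⟩, h1⟩ := hq
  choose z hz using h1
  rw [hQ] at hz0 hz
  have hQr : (1 : ℝ) ≤ Q := by exact_mod_cast hQpos
  have hQw : (Q : ℝ) ^ (-w) ≤ 1 := by
    rw [Real.rpow_neg (by linarith)]
    exact inv_le_one_of_one_le₀ (Real.one_le_rpow hQr hw)
  let qq : Fin d ⊕ Fin m → ℤ := Sum.elim (fun i => -z i) q
  let y : Fin d ⊕ Fin m → ℝ := Sum.elim x (fun j => A0 j + ∑ i, x i * A1 i j)
  have hsum : ∀ a : ℕ, ∑ i, (qq i : ℝ) * ((a : ℝ) * y i) =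
      a * (z0 + ((∑ j, A0 j * q j - z0) + ∑ i, x i * (∑ j, A1 i j * q j - z i))) := by
    intro a
    have e : ∑ j, (q j : ℝ) * ∑ i, x i * A1 i j = ∑ i, x i * ∑ j, A1 i j * q j := by
      simp_rw [Finset.mul_sum]
      rw [Finset.sum_comm]
      refine Finset.sum_congr rfl fun i _ => Finset.sum_congr rfl fun j _ => by ring
    have e1 : ∑ i, (qq i : ℝ) * ((a : ℝ) * y i) = a * ∑ i, (qq i : ℝ) * y i := by
      rw [Finset.mul_sum]
      exact Finset.sum_congr rfl fun i _ => by ring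
    rw [e1]
    congr 1
    simp only [Fintype.sum_sum_type, qq, y, Sum.elim_inl, Sum.elim_inr]
    push_cast
    simp only [mul_add, Finset.sum_add_distrib, e, mul_sub, Finset.sum_sub_distrib]
    have e2 : ∑ j, (q j : ℝ) * A0 j = ∑ j, A0 j * q j :=
      Finset.sum_congr rfl fun j _ => by ring
    have e3 : ∑ i, -(z i : ℝ) * x i = - ∑ i, x i * z i := by
      rw [← Finset.sum_neg_distrib]
      exact Finset.sum_congr rfl fun j _ => by ring
    rw [e2, e3]; ring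
  have hQ0 : 0 ≤ (Q : ℝ) ^ (-w) := Real.rpow_nonneg (by linarith) _
  have herr : |(∑ j, A0 j * q j - z0) + ∑ i, x i * (∑ j, A1 i j * q j - z i)| ≤
      (1 + d) * (Q : ℝ) ^ (-w) := by
    calc _ ≤ |∑ j, A0 j * q j - z0| + |∑ i, x i * (∑ j, A1 i j * q j - z i)| := abs_add_le _ _
      _ ≤ (Q : ℝ) ^ (-w) + ∑ i : Fin d, (Q : ℝ) ^ (-w) := by
          refine add_le_add hz0.le ((Finset.abs_sum_le_sum_abs _ _).trans ?_)
          refine Finset.sum_le_sum fun i _ => ?_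
          rw [abs_mul]
          calc |x i| * |∑ j, A1 i j * q j - z i| ≤ 1 * (Q : ℝ) ^ (-w) :=
                mul_le_mul (hx i) (hz i).le (abs_nonneg _) zero_le_one
            _ = _ := one_mul _
      _ = _ := by
          rw [Finset.sum_const, Finset.card_univ, Fintype.card_fin, nsmul_eq_mul]; ring
  have hcardκ : Fintype.card (Fin d ⊕ Fin m) = d + m := by simp
  have hqq : ∀ i, |qq i| ≤ (Q' : ℤ) := by
    rintro (i | j)
    · simp only [qq, Sum.elim_inl, abs_neg]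
      have h2 : |(z i : ℝ)| ≤ Q' := by
        have h3 : |∑ j, A1 i j * q j| ≤ (∑ i, ∑ j, |A1 i j|) * Q := by
          calc _ ≤ ∑ j, |A1 i j| * Q := by
                refine (Finset.abs_sum_le_sum_abs _ _).trans (Finset.sum_le_sum fun j _ => ?_)
                rw [abs_mul]
                refine mul_le_mul_of_nonneg_left ?_ (abs_nonneg _)
                rw [← hQ, ← Int.norm_eq_abs]
                exact norm_le_pi_norm q j
            _ = (∑ j, |A1 i j|) * Q := by rw [Finset.sum_mul]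
            _ ≤ _ := by
                refine mul_le_mul_of_nonneg_right ?_ (by linarith)
                exact Finset.single_le_sum (f := fun i => ∑ j, |A1 i j|)
                  (fun i _ => Finset.sum_nonneg fun j _ => abs_nonneg _) (mem_univ i)
        have h4 := hz i
        have h5 : |(z i : ℝ)| ≤ |∑ j, A1 i j * q j| + |∑ j, A1 i j * q j - z i| := by
          have := abs_sub (∑ j, A1 i j * q j) (∑ j, A1 i j * q j - z i)
          simpa using this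
        linarith
      exact_mod_cast h2
    · exact hQ1 j
  obtain ⟨T', hT', hcard, hT'2⟩ := strip_pigeonhole qq (Sum.inr i0) Q' K hK hqq hcop
    (Finset.range (N + 1)) (fun a i => (a : ℝ) * y i) (N * ((1 + d) * (Q : ℝ) ^ (-w)))
    (by positivity) (by
      intro a ha
      refine ⟨a * z0, ?_⟩
      rw [hsum a]
      push_cast
      have e : (a : ℝ) * (z0 + ((∑ j, A0 j * q j - z0) + ∑ i, x i * (∑ j, A1 i j * q j - z i))) -
          a * z0 = a * ((∑ j, A0 j * q j - z0) + ∑ i, x i * (∑ j, A1 i j * q j - z i)) := by ring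
      rw [e, abs_mul, Nat.abs_cast]
      have ha' : (a : ℝ) ≤ N := by
        have := Finset.mem_range.mp ha
        exact_mod_cast Nat.lt_succ_iff.mp this
      exact mul_le_mul ha' herr (abs_nonneg _) (Nat.cast_nonneg _)) 1 (by
      rw [hcardκ, Finset.card_range, Nat.cast_one, mul_one]
      push_cast
      push_cast at hB
      exact hB)
  obtain ⟨a, ha, b, hb, hab⟩ := Finset.one_lt_card.mp hcard
  wlog hlt : a < b generalizing a b
  · exact this b hb a ha hab.symm (lt_of_le_of_ne (not_lt.mp hlt) hab.symm)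
  obtain ⟨p, hp⟩ := hT'2 b hb a ha
  have hbN : b ≤ N := Nat.lt_succ_iff.mp (Finset.mem_range.mp (hT' hb))
  refine ⟨b - a, by omega, by omega, fun i => p (Sum.inl i), fun j => p (Sum.inr j), ?_, ?_⟩
  · intro i
    have := hp (Sum.inl i)
    simp only [y, Sum.elim_inl] at this
    rw [Nat.cast_sub hlt.le, sub_mul]
    exact this
  · intro j
    have := hp (Sum.inr j)
    simp only [y, Sum.elim_inr] at this
    rw [Nat.cast_sub hlt.le, sub_mul]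
    exact this

theorem exists_scale_d {d m : ℕ} (hm : 1 ≤ m) (A0 : Fin m → ℝ) (A1 : Fin d → Fin m → ℝ)
    (w : ℝ) (hw : (d : ℝ) + m < w) (hinf : {q : Fin m → ℤ | IsApprox A0 A1 w q}.Infinite)
    (η : ℝ) (hη : 0 < η) (X : ℕ) :
    ∃ (q : Fin m → ℤ) (i0 : Fin m) (Q Q' K N : ℕ), IsApprox A0 A1 w q ∧ ‖q‖ = Q ∧
      (∀ j, |q j| ≤ (Q' : ℤ)) ∧ (∑ i, ∑ j, |A1 i j|) * Q + 1 ≤ Q' ∧ 1 ≤ Q ∧ 0 < K ∧
      IsCoprime (q i0) (K : ℤ) ∧
      (K : ℝ) ^ (d + m - 1) * (2 * (K * (N * ((1 + d) * (Q : ℝ) ^ (-w))) +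
        (d + m : ℕ) * Q') + 1) < N + 1 ∧ X ≤ N ∧ X ≤ K ∧
      (1 / (K : ℝ)) ^ ((m : ℝ) + d) * ((N : ℝ) + 1) ≤ η := by
  classical
  set n : ℕ := d + m with hn
  have hn1 : 1 ≤ n := by omega
  have hnr : (1 : ℝ) ≤ n := by exact_mod_cast hn1
  have hw' : (n : ℝ) < w := by rw [hn]; push_cast; exact hw
  set S : ℝ := ∑ i, ∑ j, |A1 i j| with hS
  have hS0 : 0 ≤ S := Finset.sum_nonneg fun i _ => Finset.sum_nonneg fun j _ => abs_nonneg _
  set Ca : ℕ := ⌈S⌉₊ + 1 with hCa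
  set C' : ℕ := 2 + 2 * n * Ca + 1 with hC'
  set κ : ℝ := (1 + w / n) / 2 with hκ
  have hwn : 1 < w / n := by rw [lt_div_iff₀ (by linarith)]; linarith
  have hκ1 : 1 < κ := by rw [hκ]; linarith
  have hκ2 : κ * n < w := by
    have : κ < w / n := by rw [hκ]; linarith
    rwa [lt_div_iff₀ (by linarith)] at this
  have t1 : Tendsto (fun T : ℝ => T ^ (w - κ * n)) atTop atTop := tendsto_rpow_atTop (by linarith)
  have t2 : Tendsto (fun T : ℝ => T ^ (κ - 1)) atTop atTop := tendsto_rpow_atTop (by linarith)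
  have ev := ((t1.eventually_ge_atTop ((3 : ℝ) ^ n * C' * (1 + d))).and
    (t2.eventually_ge_atTop (((C' : ℝ) + 1) / η))).and
    ((eventually_ge_atTop (X : ℝ)).and (eventually_ge_atTop (1 : ℝ)))
  obtain ⟨X0, hX0⟩ := Filter.eventually_atTop.mp ev
  obtain ⟨q, hq, hqX⟩ := exists_large hinf X0
  obtain ⟨i0, hi0, hnorm⟩ := exists_max_coord hm q
  obtain ⟨⟨e1, e2⟩, e3, e4⟩ := hX0 ‖q‖ hqX
  set Q : ℕ := (q i0).natAbs with hQ
  have hQn : ‖q‖ = Q := by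
    rw [hnorm, hQ, Nat.cast_natAbs, Int.cast_abs]
  rw [hQn] at e1 e2 e3 e4
  have hQ1 : 1 ≤ Q := by exact_mod_cast e4
  have hQr : (0 : ℝ) < Q := by linarith
  set L : ℕ := ⌈(Q : ℝ) ^ (κ - 1)⌉₊ with hL
  set K : ℕ := Q * L + 1 with hK
  set N : ℕ := K ^ (n - 1) * (C' * Q) with hN
  have hK0 : 0 < K := by omega
  have hKr : (0 : ℝ) < K := by exact_mod_cast hK0
  have hQκ : (Q : ℝ) * (Q : ℝ) ^ (κ - 1) = (Q : ℝ) ^ κ := by
    rw [mul_comm, ← Real.rpow_add_one hQr.ne']; ring_nf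
  have hKge : (Q : ℝ) ^ κ ≤ K := by
    rw [← hQκ, hK]; push_cast
    have : (Q : ℝ) ^ (κ - 1) ≤ L := Nat.le_ceil _
    nlinarith
  have hQleκ : (Q : ℝ) ≤ (Q : ℝ) ^ κ := by
    calc (Q : ℝ) = (Q : ℝ) ^ (1 : ℝ) := (Real.rpow_one _).symm
      _ ≤ _ := Real.rpow_le_rpow_of_exponent_le e4 hκ1.le
  have hKle : (K : ℝ) ≤ 3 * (Q : ℝ) ^ κ := by
    rw [hK]; push_cast
    have h1 : (L : ℝ) ≤ (Q : ℝ) ^ (κ - 1) + 1 := (Nat.ceil_lt_add_one (by positivity)).le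
    calc (Q : ℝ) * L + 1 ≤ Q * ((Q : ℝ) ^ (κ - 1) + 1) + 1 := by gcongr
      _ = (Q : ℝ) ^ κ + Q + 1 := by rw [mul_add, hQκ]; ring
      _ ≤ _ := by linarith
  have hKn : (K : ℝ) ^ n * (C' * (1 + d)) ≤ (Q : ℝ) ^ w := by
    calc (K : ℝ) ^ n * (C' * (1 + d)) ≤ (3 * (Q : ℝ) ^ κ) ^ n * (C' * (1 + d)) := by gcongr
      _ = (3 : ℝ) ^ n * C' * (1 + d) * (Q : ℝ) ^ (κ * n) := by
          rw [mul_pow, Real.rpow_mul hQr.le, Real.rpow_natCast]; ring
      _ ≤ (Q : ℝ) ^ (w - κ * n) * (Q : ℝ) ^ (κ * n) := by gcongr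
      _ = (Q : ℝ) ^ w := by rw [← Real.rpow_add hQr]; ring_nf
  have hKpow : (K : ℝ) * (K : ℝ) ^ (n - 1) = (K : ℝ) ^ n := by
    rw [← pow_succ', Nat.sub_add_cancel hn1]
  have hNr : (N : ℝ) = (K : ℝ) ^ (n - 1) * (C' * Q) := by rw [hN]; push_cast; ring
  refine ⟨q, i0, Q, Ca * Q, K, N, hq, hQn, ?_, ?_, hQ1, hK0, ?_, ?_, ?_, ?_, ?_⟩
  · intro j
    have h1 : |q j| ≤ |q i0| := hi0 j
    have h2 : (Q : ℤ) = |q i0| := by rw [hQ]; exact Int.natCast_natAbs _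
    have h3 : (Q : ℤ) ≤ (Ca * Q : ℕ) := by
      exact_mod_cast Nat.le_mul_of_pos_left Q (by omega)
    linarith
  · push_cast
    have h1 : S ≤ ⌈S⌉₊ := Nat.le_ceil _
    rw [hCa]; push_cast
    nlinarith
  · have h2 : (Q : ℤ) = |q i0| := by rw [hQ]; exact Int.natCast_natAbs _
    have h3 : IsCoprime (Q : ℤ) (K : ℤ) := by
      rw [hK]; push_cast
      exact ⟨-L, 1, by ring⟩
    rw [h2] at h3
    exact (IsCoprime.abs_left_iff _ _).mp h3
  · have h1 : (K : ℝ) * (N * ((1 + d) * (Q : ℝ) ^ (-w))) ≤ Q := by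
      rw [hNr]
      calc (K : ℝ) * ((K : ℝ) ^ (n - 1) * (C' * Q) * ((1 + d) * (Q : ℝ) ^ (-w)))
          = ((K : ℝ) * (K : ℝ) ^ (n - 1)) * (C' * (1 + d)) * (Q : ℝ) ^ (-w) * Q := by ring
        _ = (K : ℝ) ^ n * (C' * (1 + d)) * (Q : ℝ) ^ (-w) * Q := by rw [hKpow]
        _ ≤ (Q : ℝ) ^ w * (Q : ℝ) ^ (-w) * Q := by gcongr
        _ = Q := by rw [← Real.rpow_add hQr]; simp
    have h2 : 2 * ((K : ℝ) * (N * ((1 + d) * (Q : ℝ) ^ (-w))) + (n : ℕ) * ((Ca * Q : ℕ) : ℝ)) + 1 ≤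
        C' * Q := by
      rw [hC']; push_cast
      nlinarith
    calc (K : ℝ) ^ (n - 1) * (2 * ((K : ℝ) * (N * ((1 + d) * (Q : ℝ) ^ (-w))) +
          (n : ℕ) * ((Ca * Q : ℕ) : ℝ)) + 1) ≤ (K : ℝ) ^ (n - 1) * (C' * Q) := by gcongr
      _ = N := hNr.symm
      _ < N + 1 := by linarith
  · have h1 : X ≤ Q := by exact_mod_cast e3
    have h2 : Q ≤ N := by
      rw [hN]
      calc Q = 1 * (1 * Q) := by ring
        _ ≤ K ^ (n - 1) * (C' * Q) := Nat.mul_le_mul (Nat.one_le_pow _ _ hK0)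
            (Nat.mul_le_mul_right _ (by omega))
    exact h1.trans h2
  · have h1 : X ≤ Q := by exact_mod_cast e3
    have h2 : (Q : ℝ) ≤ K := hQleκ.trans hKge
    exact h1.trans (by exact_mod_cast h2)
  · have h1 : (1 / (K : ℝ)) ^ ((m : ℝ) + d) = 1 / (K : ℝ) ^ n := by
      rw [show (m : ℝ) + d = ((n : ℕ) : ℝ) by rw [hn]; push_cast; ring, Real.rpow_natCast,
        one_div_pow]
    rw [h1]
    have h2 : (N : ℝ) + 1 ≤ (K : ℝ) ^ (n - 1) * ((C' + 1) * Q) := by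
      rw [hNr]
      have h3 : (1 : ℝ) ≤ (K : ℝ) ^ (n - 1) := one_le_pow₀ (by exact_mod_cast hK0)
      have h4 : (1 : ℝ) ≤ (K : ℝ) ^ (n - 1) * Q := one_le_mul_of_one_le_of_one_le h3 e4
      calc (K : ℝ) ^ (n - 1) * (C' * Q) + 1 ≤
            (K : ℝ) ^ (n - 1) * (C' * Q) + (K : ℝ) ^ (n - 1) * Q := by linarith
        _ = _ := by ring
    calc 1 / (K : ℝ) ^ n * ((N : ℝ) + 1) ≤ 1 / (K : ℝ) ^ n * ((K : ℝ) ^ (n - 1) * ((C' + 1) * Q)) :=
          mul_le_mul_of_nonneg_left h2 (by positivity)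
      _ = ((C' + 1) * Q) / K := by
          rw [← hKpow]; field_simp
      _ ≤ ((C' + 1) * Q) / (Q : ℝ) ^ κ := by gcongr
      _ = (C' + 1) / (Q : ℝ) ^ (κ - 1) := by rw [← hQκ]; field_simp
      _ ≤ η := by
          rw [div_le_iff₀ (by positivity)]
          rw [div_le_iff₀ hη] at e2
          linarith

/-- The case `s = d`. -/
theorem case_d {d m : ℕ} (hm : 1 ≤ m) (A0 : Fin m → ℝ) (A1 : Fin d → Fin m → ℝ)
    (w : ℝ) (hw : (d : ℝ) + m < w) (hinf : {q : Fin m → ℤ | IsApprox A0 A1 w q}.Infinite) :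
    ∃ ψ : ℕ → ℝ, (∀ q, 0 < ψ q) ∧ StrictAnti ψ ∧
      (Summable fun q : ℕ => ψ q ^ ((m : ℝ) + d) * (q : ℝ) ^ (0 : ℝ)) ∧
      ∀ x : Fin d → ℝ, (∀ i, |x i| ≤ 1) → ∀ X : ℕ, ∃ k : ℕ, X < k ∧
        ∃ p : Fin d → ℤ, ∃ r : Fin m → ℤ, (∀ i, |k * x i - p i| < ψ k) ∧
          ∀ j, |k * (A0 j + ∑ i, x i * A1 i j) - r j| < ψ k := by
  classical
  have hw0 : 0 ≤ w := by
    have : (0 : ℝ) ≤ (d : ℝ) + m := by positivity
    linarith
  choose q i0 Q Q' K N h1 h2 h3 h4 h5 h6 h7 h8 h9 h10 h11 using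
    fun j : ℕ => exists_scale_d hm A0 A1 w hw hinf ((1 / 2 : ℝ) ^ j) (by positivity) (j + 1)
  have hKr : ∀ j, (0 : ℝ) < K j := fun j => by exact_mod_cast h6 j
  have hp : 0 < (m : ℝ) + d := by
    have : (1 : ℝ) ≤ m := by exact_mod_cast hm
    positivity
  obtain ⟨ψ, hψ0, hψa, hψ1, hψ2⟩ := exists_psi (fun j => 1 / (K j : ℝ)) N
    (fun j => by have := hKr j; positivity)
    (tendsto_atTop_mono (fun j => (Nat.le_succ j).trans (h9 j)) tendsto_id) ((m : ℝ) + d) 0 hp le_rfl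
    (by
      refine Summable.of_nonneg_of_le (fun j => ?_) (fun j => ?_)
        (summable_geometric_of_lt_one (by norm_num : (0 : ℝ) ≤ 1 / 2) (by norm_num))
      · have := hKr j
        positivity
      · have := h11 j
        rw [zero_add, Real.rpow_one]
        exact this)
  refine ⟨ψ, hψ0, hψa, hψ2, ?_⟩
  intro x hx X
  have key : ∀ j, ∃ k : ℕ, 1 ≤ k ∧ k ≤ N j ∧ ∃ p : Fin d → ℤ, ∃ r : Fin m → ℤ,
      (∀ i, |k * x i - p i| < 1 / K j) ∧
      ∀ l, |k * (A0 l + ∑ i, x i * A1 i l) - r l| < 1 / K j := fun j =>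
    scale_d A0 A1 w (q j) (h1 j) (i0 j) (Q j) (Q' j) (K j) (N j) (h2 j) (h3 j) (h4 j) hw0 (h5 j)
      (h6 j) (h7 j) (h8 j) x hx
  by_cases h0 : ∃ k : ℕ, 1 ≤ k ∧ ∃ p : Fin d → ℤ, ∃ r : Fin m → ℤ, (∀ i, (k : ℝ) * x i = p i) ∧
      ∀ l, (k : ℝ) * (A0 l + ∑ i, x i * A1 i l) = r l
  · obtain ⟨k, hk, p, r, hp1, hr1⟩ := h0
    refine ⟨k * (X + 1), ?_, fun i => p i * (X + 1), fun l => r l * (X + 1), fun i => ?_,
      fun l => ?_⟩
    · nlinarith
    · have : ((k * (X + 1) : ℕ) : ℝ) * x i - ((p i * (X + 1) : ℤ) : ℝ) = 0 := by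
        push_cast; rw [← hp1 i]; ring
      rw [this, abs_zero]; exact hψ0 _
    · have : ((k * (X + 1) : ℕ) : ℝ) * (A0 l + ∑ i, x i * A1 i l) -
          ((r l * (X + 1) : ℤ) : ℝ) = 0 := by
        push_cast; rw [← hr1 l]; ring
      rw [this, abs_zero]; exact hψ0 _
  · push Not at h0
    -- each `k` in `[1, X]` is bounded away
    have haway : ∀ k : ℕ, ∃ ε : ℝ, 0 < ε ∧ (1 ≤ k → ¬ ∃ p : Fin d → ℤ, ∃ r : Fin m → ℤ,
        (∀ i, |k * x i - p i| < ε) ∧ ∀ l, |k * (A0 l + ∑ i, x i * A1 i l) - r l| < ε) := by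
      intro k
      by_cases hk : 1 ≤ k
      · have h := h0 k hk (fun i => round ((k : ℝ) * x i))
          (fun l => round ((k : ℝ) * (A0 l + ∑ i, x i * A1 i l)))
        by_cases hx1 : ∀ i, (k : ℝ) * x i = (round ((k : ℝ) * x i) : ℤ)
        · obtain ⟨l, hl⟩ := h hx1
          refine ⟨|(k : ℝ) * (A0 l + ∑ i, x i * A1 i l) -
            round ((k : ℝ) * (A0 l + ∑ i, x i * A1 i l))|, abs_pos.mpr (sub_ne_zero.mpr hl), ?_⟩
          rintro - ⟨p, r, -, hr⟩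
          exact absurd (round_le _ (r l)) (not_le.mpr (hr l))
        · push Not at hx1
          obtain ⟨i, hi⟩ := hx1
          refine ⟨|(k : ℝ) * x i - round ((k : ℝ) * x i)|, abs_pos.mpr (sub_ne_zero.mpr hi), ?_⟩
          rintro - ⟨p, r, hp', -⟩
          exact absurd (round_le _ (p i)) (not_le.mpr (hp' i))
      · exact ⟨1, one_pos, fun h => absurd h hk⟩
    choose ε hε0 hε using haway
    obtain ⟨j, hj⟩ : ∃ j : ℕ, ∀ k ∈ Finset.range (X + 1), 1 / (K j : ℝ) ≤ ε k := by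
      obtain ⟨k0, -, hk0⟩ := Finset.exists_min_image (Finset.range (X + 1)) ε
        ⟨0, Finset.mem_range.mpr (Nat.succ_pos X)⟩
      obtain ⟨j, hj⟩ := exists_nat_one_div_lt (hε0 k0)
      refine ⟨j, fun k hk => ?_⟩
      have a1 : (1 : ℝ) / K j ≤ 1 / ((j : ℝ) + 1) := by
        apply one_div_le_one_div_of_le (by positivity)
        exact_mod_cast h10 j
      exact a1.trans (hj.le.trans (hk0 k hk))
    obtain ⟨k, hk1, hkN, p, r, hp', hr⟩ := key j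
    refine ⟨k, ?_, p, r, fun i => (hp' i).trans (hψ1 j k hkN), fun l => (hr l).trans (hψ1 j k hkN)⟩
    by_contra hcon
    push Not at hcon
    have hkm : k ∈ Finset.range (X + 1) := Finset.mem_range.mpr (by omega)
    exact hε k hk1 ⟨p, r, fun i => (hp' i).trans_le (hj k hkm),
      fun l => (hr l).trans_le (hj k hkm)⟩

end R464.Jar
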