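import Mathlib

/-!
Basic definitions for the Jarnik-type problem on affine subspaces.
-/

namespace R464.Jar

open Finset Filter

/-- `q` is a good approximation with exponent `w` for the matrix with first row `A0` and other
rows `A1 i`: all entries of `A q` are within `‖q‖ ^ (-w)` of integers. -/
def IsApprox {d m : ℕ} (A0 : Fin m → ℝ) (A1 : Fin d → Fin m → ℝ) (w : ℝ) (q : Fin m → ℤ) : Prop :=
  (∃ z : ℤ, |∑ j, A0 j * q j - z| < ‖q‖ ^ (-w)) ∧
    ∀ i, ∃ z : ℤ, |∑ j, A1 i j * q j - z| < ‖q‖ ^ (-w)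

theorem exists_max_coord {m : ℕ} (hm : 1 ≤ m) (q : Fin m → ℤ) :
    ∃ i0, (∀ i, |q i| ≤ |q i0|) ∧ ‖q‖ = |(q i0 : ℝ)| := by
  have : Nonempty (Fin m) := ⟨⟨0, hm⟩⟩
  obtain ⟨i0, _, hi0⟩ := Finset.exists_max_image (univ : Finset (Fin m)) (fun i => |q i|)
    Finset.univ_nonempty
  refine ⟨i0, fun i => hi0 i (mem_univ _), le_antisymm ?_ ?_⟩
  · refine (pi_norm_le_iff_of_nonneg (abs_nonneg _)).mpr fun i => ?_
    rw [Int.norm_eq_abs]
    exact_mod_cast hi0 i (mem_univ _)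
  · have := norm_le_pi_norm q i0
    rwa [Int.norm_eq_abs] at this

theorem exists_large {d m : ℕ} {A0 : Fin m → ℝ} {A1 : Fin d → Fin m → ℝ} {w : ℝ}
    (hinf : {q : Fin m → ℤ | IsApprox A0 A1 w q}.Infinite) (X : ℝ) :
    ∃ q, IsApprox A0 A1 w q ∧ X ≤ ‖q‖ := by
  by_contra hcon
  push Not at hcon
  apply hinf
  refine (Set.finite_Icc (fun _ : Fin m => -⌈X⌉) (fun _ => ⌈X⌉)).subset ?_
  intro q hq
  have h1 := hcon q hq
  rw [Set.mem_Icc]
  constructor
  · intro i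
    have h2 : |(q i : ℝ)| ≤ X := by
      rw [← Int.norm_eq_abs]; exact (norm_le_pi_norm q i).trans h1.le
    have h3 : (-(q i) : ℝ) ≤ ⌈X⌉ := (neg_le_abs _).trans (h2.trans (Int.le_ceil X))
    have h4 : -(q i) ≤ ⌈X⌉ := by exact_mod_cast h3
    simp only; linarith
  · intro i
    have h2 : |(q i : ℝ)| ≤ X := by
      rw [← Int.norm_eq_abs]; exact (norm_le_pi_norm q i).trans h1.le
    have h3 : ((q i) : ℝ) ≤ ⌈X⌉ := (le_abs_self _).trans (h2.trans (Int.le_ceil X))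
    exact_mod_cast h3

end R464.Jar
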